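import Pool.Agent.Helper1.Q1.Two

/-! The uniform ergodic upper bound. -/

namespace Pool.Agent.Helper1.Q1

open Finset Pool.Agent.Helper3.Q1 Filter Topology

/-- equality case of the entropy bound in a cell -/
theorem nent_eq {p : E} (h : IsLaw p) (s r : ℕ) (x : ℤ) (he : p s x * (r * Real.log 3) ≤ nent p s r x) :
    ∀ v ∈ range (3 ^ r), p (s + r) (x + 3 ^ (s + 1) * (v : ℤ)) = p s x / 3 ^ r := by
  have hcs := cell_sum h s r x
  rcases (h.nonneg s x).eq_or_lt with h0 | h0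
  · intro v hv
    have h1 : p (s + r) (x + 3 ^ (s + 1) * (v : ℤ)) ≤ p s x := by
      have := add_le h s r (x + 3 ^ (s + 1) * (v : ℤ))
      rwa [per_int h] at this
    have h2 : p (s + r) (x + 3 ^ (s + 1) * (v : ℤ)) = 0 := le_antisymm (by rw [← h0] at h1; exact h1) (h.nonneg _ _)
    rw [h2, ← h0, zero_div]
  · set f : ℕ → ℝ := fun v => p (s + r) (x + 3 ^ (s + 1) * (v : ℤ)) * (r * Real.log 3) +
      (p s x / 3 ^ r - p (s + r) (x + 3 ^ (s + 1) * (v : ℤ))) - LL (p (s + r) (x + 3 ^ (s + 1) * (v : ℤ))) (p s x) with hf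
    have key : ∀ v ∈ range (3 ^ r), 0 ≤ f v := by
      intro v _
      simp only [hf]
      set a := p (s + r) (x + 3 ^ (s + 1) * (v : ℤ)) with ha
      have ha0 : 0 ≤ a := h.nonneg _ _
      rcases ha0.eq_or_lt with h1 | h1
      · rw [← h1]; simp only [LL, zero_mul, sub_zero, zero_add]; positivity
      · have h3 : (0 : ℝ) < 3 ^ r := by positivity
        have h2 : Real.log (p s x / (3 ^ r * a)) ≤ p s x / (3 ^ r * a) - 1 := Real.log_le_sub_one_of_pos (by positivity)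
        rw [Real.log_div h0.ne' (by positivity), Real.log_mul h3.ne' h1.ne', Real.log_pow] at h2
        have h4 := mul_le_mul_of_nonneg_left h2 ha0
        have h5 : a * (p s x / (3 ^ r * a) - 1) = p s x / 3 ^ r - a := by field_simp
        rw [h5] at h4
        unfold LL
        linarith
    have hsum : ∑ v ∈ range (3 ^ r), f v = 0 := by
      apply le_antisymm _ (sum_nonneg key)
      simp only [hf]
      rw [sum_sub_distrib, sum_add_distrib, ← sum_mul, sum_sub_distrib, hcs, sum_const, card_range, nsmul_eq_mul]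
      have h6 : ((3 ^ r : ℕ) : ℝ) * (p s x / 3 ^ r) = p s x := by
        push_cast; field_simp
      rw [h6]
      unfold nent at he
      linarith
    have hz := (sum_eq_zero_iff_of_nonneg key).mp hsum
    intro v hv
    have h7 := hz v hv
    simp only [hf] at h7
    set a := p (s + r) (x + 3 ^ (s + 1) * (v : ℤ)) with ha
    have ha0 : 0 ≤ a := h.nonneg _ _
    rcases ha0.eq_or_lt with h1 | h1
    · rw [← h1] at h7 ⊢
      simp only [LL, zero_mul, sub_zero, zero_add] at h7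
      exact h7.symm
    · have h3 : (0 : ℝ) < 3 ^ r := by positivity
      by_contra hne
      have hne1 : p s x / (3 ^ r * a) ≠ 1 := by
        intro h8
        apply hne
        rw [div_eq_one_iff_eq (by positivity)] at h8
        rw [h8]; field_simp
      have h2 : Real.log (p s x / (3 ^ r * a)) < p s x / (3 ^ r * a) - 1 := Real.log_lt_sub_one_of_pos (by positivity) hne1
      rw [Real.log_div h0.ne' (by positivity), Real.log_mul h3.ne' h1.ne', Real.log_pow] at h2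
      have h4 := mul_lt_mul_of_pos_left h2 h1
      have h5 : a * (p s x / (3 ^ r * a) - 1) = p s x / 3 ^ r - a := by field_simp
      rw [h5] at h4
      unfold LL at h7
      linarith

/-- an extreme law has full entropy in the first `k` digits -/
theorem ext_full (h1 : PartI) (h2 : PartII) {K : Ker} {p : E} (hp : Ext K p) : K.k * Real.log 3 ≤ hh p K.k - hh p 0 := by
  have hlaw := hp.1.1
  set S : Set ℝ := {t : ℝ | ∃ J : ℕ, 1 ≤ J ∧ t = (hh p (K.k * J) - hh p 0) / J} with hS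
  have hSb : BddBelow S := by
    refine ⟨0, ?_⟩
    rintro t ⟨J, hJ, rfl⟩
    have := hh_mono hlaw 0 (K.k * J)
    rw [zero_add] at this
    exact div_nonneg (by linarith) (by positivity)
  have hSne : S.Nonempty := ⟨_, 1, le_refl _, rfl⟩
  set β := sInf S with hβ
  have hβ1 : β ≤ hh p K.k - hh p 0 := by
    refine csInf_le hSb ⟨1, le_refl _, ?_⟩
    simp
  have hβJ : ∀ ε : ℝ, 0 < ε → ∃ J : ℕ, 1 ≤ J ∧ hh p (K.k * J) - hh p 0 ≤ J * (β + ε) := by
    intro ε hε
    obtain ⟨t, ⟨J, hJ, rfl⟩, ht⟩ := exists_lt_of_csInf_lt hSne (show sInf S < β + ε by linarith)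
    refine ⟨J, hJ, ?_⟩
    have hJpos : (0 : ℝ) < J := by exact_mod_cast hJ
    rw [div_lt_iff₀ hJpos] at ht
    linarith
  obtain ⟨c3, hc3, hI⟩ := h1 K p hp.1
  refine le_trans ?_ hβ1
  refine le_of_forall_pos_le_add fun ε hε => ?_
  obtain ⟨N0, hN0⟩ := h2 K p hp β hβJ c3 hc3 (ε / 2) (by positivity)
  obtain ⟨N1, hN1⟩ := exists_nat_ge (2 * (K.k * Real.log 3 + 1) / ε)
  set N := max (max N0 N1) 1 with hN
  have hNN0 : N0 ≤ N := by omega
  have hNN1 : N1 ≤ N := by omega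
  have hN1' : 1 ≤ N := by omega
  have hNpos : (0 : ℝ) < N := by exact_mod_cast hN1'
  obtain ⟨m, B, hB, hBm, hBx⟩ := hI N hN1' 1 one_pos
  have h3 := hN0 N hNN0 m B hB hBm
  have h4 := sum_le_sum hBx
  rw [← mul_sum] at h4
  have hb : 0 < ∑ x ∈ B, p (K.k * m) (x : ℤ) := hc3.trans_le hBm
  have h5 : (((N : ℝ) - 1) * K.k * Real.log 3 - 1) * (∑ x ∈ B, p (K.k * m) (x : ℤ)) ≤
      (N * (β + ε / 2)) * (∑ x ∈ B, p (K.k * m) (x : ℤ)) := by
    refine h4.trans (h3.trans (le_of_eq ?_))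
    ring
  have h6 := le_of_mul_le_mul_right h5 hb
  have h7 : K.k * Real.log 3 + 1 ≤ N * (ε / 2) := by
    have h8 : 2 * (K.k * Real.log 3 + 1) / ε ≤ N := hN1.trans (by exact_mod_cast hNN1)
    rw [div_le_iff₀ hε] at h8
    linarith
  have h9 : (N : ℝ) * (K.k * Real.log 3) ≤ N * (β + ε) := by linarith
  exact le_of_mul_le_mul_left h9 hNpos

theorem ext_le (h1 : PartI) (h2 : PartII) {K : Ker} {p : E} (hp : Ext K p) (x : ℤ) : p K.k x ≤ 1 / 3 ^ K.k := by
  have hlaw := hp.1.1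
  have hfull := ext_full h1 h2 hp
  have h3 := hh_sub hlaw 0 K.k
  rw [zero_add] at h3
  -- equality in every cell
  have h4 : ∀ y ∈ range (3 ^ (0 + 1)), nent p 0 K.k (y : ℤ) ≤ p 0 (y : ℤ) * (K.k * Real.log 3) :=
    fun y _ => card_log 0 K.k hlaw (y : ℤ)
  have h5 : ∑ y ∈ range (3 ^ (0 + 1)), p 0 (y : ℤ) * (K.k * Real.log 3) = K.k * Real.log 3 := by
    rw [← sum_mul, mass hlaw 0, one_mul]
  have h6 : ∑ y ∈ range (3 ^ (0 + 1)), nent p 0 K.k (y : ℤ) = ∑ y ∈ range (3 ^ (0 + 1)), p 0 (y : ℤ) * (K.k * Real.log 3) := by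
    apply le_antisymm (sum_le_sum h4)
    rw [h5, ← h3]
    exact hfull
  have h7 := (sum_eq_sum_iff_of_le h4).mp h6
  -- locate x
  rw [per_emod hlaw]
  have hx0 : 0 ≤ x % 3 ^ (K.k + 1) := Int.emod_nonneg _ (by positivity)
  have hx1 : x % 3 ^ (K.k + 1) < 3 ^ (K.k + 1) := Int.emod_lt_of_pos _ (by positivity)
  obtain ⟨z, hz⟩ := Int.eq_ofNat_of_zero_le hx0
  rw [hz] at hx1 ⊢
  have hz1 : z < 3 ^ (K.k + 1) := by exact_mod_cast hx1
  have hzq : z / 3 < 3 ^ K.k := by
    rw [pow_succ] at hz1; omega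
  have hzr : z % 3 < 3 := Nat.mod_lt _ (by norm_num)
  have h8 := nent_eq hlaw 0 K.k ((z % 3 : ℕ) : ℤ) (h7 (z % 3) (mem_range.mpr (by simpa using hzr))).ge (z / 3) (mem_range.mpr hzq)
  have h9 : ((z % 3 : ℕ) : ℤ) + 3 ^ (0 + 1) * ((z / 3 : ℕ) : ℤ) = (z : ℤ) := by
    have := Nat.mod_add_div z 3
    rw [zero_add, pow_one]
    exact_mod_cast this
  rw [h9, zero_add] at h8
  rw [h8]
  have := le_one hlaw 0 ((z % 3 : ℕ) : ℤ)
  gcongr

theorem ext_EE (h1 : PartI) (h2 : PartII) {K : Ker} {p : E} (hp : Ext K p) (ψ : ℤ → ℝ) (hψ : ∀ x, 0 ≤ ψ x) :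
    EE p K.k ψ ≤ uav K.k ψ := by
  classical
  unfold EE uav
  rw [sum_div, sum_filter]
  refine sum_le_sum fun y _ => ?_
  by_cases hy : (3 : ℤ) ∣ (y : ℤ)
  · rw [if_neg (not_not.mpr hy), zero_of_dvd hp.1.1 _ hy, zero_mul]
  · rw [if_pos hy]
    have := mul_le_mul_of_nonneg_right (ext_le h1 h2 hp (y : ℤ)) (hψ (y : ℤ))
    refine this.trans (le_of_eq ?_)
    ring

/-- the point mass -/
noncomputable def dl (x : ℤ) : E := fun n z => ic n z x

theorem dl_law {x : ℤ} (hx : ¬ (3 : ℤ) ∣ x) : IsLaw (dl x) := by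
  constructor
  · intro n z; exact ic_nonneg _ _ _
  · intro n z; exact ic_per' _ _ _
  · intro n z; exact ic_split _ _ _
  · show ic 0 0 x = 0
    unfold ic
    rw [if_neg]
    simpa using hx
  · show ic 0 1 x + ic 0 2 x = 1
    unfold ic
    rcases (by omega : x % 3 = 1 ∨ x % 3 = 2) with h | h
    · rw [if_pos (by omega), if_neg (by omega)]; norm_num
    · rw [if_neg (by omega), if_pos (by omega)]; norm_num

theorem EE_dl (x : ℤ) (n : ℕ) (f : ℤ → ℝ) (hf : ∀ x, f (x + 3 ^ (n + 1)) = f x) : EE (dl x) n f = f x := by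
  unfold EE dl
  have h0 : 0 ≤ x % 3 ^ (n + 1) := Int.emod_nonneg _ (by positivity)
  have h1 : x % 3 ^ (n + 1) < 3 ^ (n + 1) := Int.emod_lt_of_pos _ (by positivity)
  obtain ⟨y, hy⟩ := Int.eq_ofNat_of_zero_le h0
  have hxe : x = (y : ℤ) + 3 ^ (n + 1) * (x / 3 ^ (n + 1)) := by
    rw [← hy]; exact (Int.emod_add_mul_ediv x _).symm
  rw [hy] at h1
  have hy' : y ∈ range (3 ^ (n + 1)) := mem_range.mpr (by exact_mod_cast h1)
  rw [sum_eq_single_of_mem y hy']
  · have h2 : ic n (y : ℤ) x = 1 := by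
      unfold ic
      rw [if_pos]
      rw [← hy]
      exact Int.dvd_self_sub_emod
    rw [h2, one_mul]
    conv_rhs => rw [hxe]
    exact (fper hf _ _).symm
  · intro z hz hzy
    have : ic n (z : ℤ) x = 0 := by
      unfold ic
      rw [if_neg]
      intro hd
      apply hzy
      have h2 : x % 3 ^ (n + 1) = (z : ℤ) % 3 ^ (n + 1) :=
        Int.emod_eq_emod_iff_emod_sub_eq_zero.mpr (Int.emod_eq_zero_of_dvd hd)
      rw [hy, Int.emod_eq_of_lt (by positivity) (by have := mem_range.mp hz; exact_mod_cast this)] at h2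
      exact_mod_cast h2.symm
    rw [this, zero_mul]

theorem erg (h1 : PartI) (h2 : PartII) : ERG := by
  intro K ψ hψ hper ε hε
  by_contra hcon
  push Not at hcon
  choose Ls hLs xs hxs hgt using fun i : ℕ => hcon (i + 1)
  have hev : ∀ i, EE (avg K (Ls i) (dl (xs i))) K.k ψ = (Ls i : ℝ)⁻¹ * ∑ l ∈ range (Ls i), (K.P^[l] ψ) (xs i) := by
    intro i
    unfold avg
    rw [EE_sum, mul_sum]
    refine sum_congr rfl fun l _ => ?_
    rw [EE_smul, EE_push_iter K (dl_law (hxs i)) l K.k ψ hper, EE_dl _ _ _ (P_iter_per K l K.k ψ hper)]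
  have hge : ∀ i, uav K.k ψ + ε ≤ EE (avg K (Ls i) (dl (xs i))) K.k ψ := by
    intro i
    rw [hev i]
    have hL : (0 : ℝ) < Ls i := by
      have := hLs i
      exact_mod_cast (by omega : 0 < Ls i)
    have := hgt i
    rw [le_inv_mul_iff₀ hL]
    exact this.le
  obtain ⟨ρ, hρ, φ, hφ, hlim⟩ := avg_cluster (K := K) (fun p hp => push_law K hp) Ls hLs (fun i => dl (xs i))
    (fun i => dl_law (hxs i))
  have h3 : Tendsto (fun i => EE (avg K (Ls (φ i)) (dl (xs (φ i)))) K.k ψ) atTop (𝓝 (EE ρ K.k ψ)) :=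
    ((continuous_EE K.k ψ).tendsto ρ).comp hlim
  have h4 : uav K.k ψ + ε ≤ EE ρ K.k ψ := ge_of_tendsto h3 (Eventually.of_forall fun i => hge (φ i))
  obtain ⟨p, hp, h5⟩ := exists_ext K K.k ψ hρ
  have h6 := ext_EE h1 h2 hp ψ hψ
  linarith

/-- the ergodic bound from part (I) alone -/
theorem erg_of_partI (h1 : PartI) : ERG := erg h1 (partII stepS)

end Pool.Agent.Helper1.Q1
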