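import Pool.Agent.Helper3.Q1.Defs

/-! Topological part: compactness of the laws, mean ergodic limits, extreme stationary laws. -/

namespace Pool.Agent.Helper1.Q1

open Finset Pool.Agent.Helper3.Q1 Filter Topology

/-- the ambient space -/
abbrev E := ℕ → ℤ → ℝ

/-! ### periodicity -/

theorem per_nat {p : E} (h : IsLaw p) (n : ℕ) (x : ℤ) (m : ℕ) : p n (x + 3 ^ (n + 1) * (m : ℤ)) = p n x := by
  induction m with
  | zero => simp
  | succ m ih =>
    rw [← ih, ← h.per n (x + 3 ^ (n + 1) * (m : ℤ))]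
    congr 1
    push_cast
    ring

theorem per_int {p : E} (h : IsLaw p) (n : ℕ) (x m : ℤ) : p n (x + 3 ^ (n + 1) * m) = p n x := by
  obtain ⟨k, rfl | rfl⟩ := Int.eq_nat_or_neg m
  · exact per_nat h n x k
  · rw [← per_nat h n (x + 3 ^ (n + 1) * -(k : ℤ)) k]
    congr 1
    ring

theorem per_emod {p : E} (h : IsLaw p) (n : ℕ) (x : ℤ) : p n x = p n (x % 3 ^ (n + 1)) := by
  conv_lhs => rw [← Int.emod_add_mul_ediv x (3 ^ (n + 1))]
  exact per_int h n _ _

/-! ### total mass -/

/-- splitting of a sum over the residues modulo `3 * M` -/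
theorem sum_split3 (f : ℤ → ℝ) (M : ℕ) :
    ∑ x ∈ range (3 * M), f (x : ℤ) = ∑ x ∈ range M, (f (x : ℤ) + f ((x : ℤ) + M) + f ((x : ℤ) + 2 * M)) := by
  have h1 : ∑ x ∈ range (3 * M), f (x : ℤ) = ∑ x ∈ range M, f (x : ℤ) + ∑ x ∈ range M, f (((M + x : ℕ) : ℤ)) +
      ∑ x ∈ range M, f (((M + M + x : ℕ) : ℤ)) := by
    rw [show 3 * M = M + M + M by ring, sum_range_add, sum_range_add]
  rw [h1, ← sum_add_distrib, ← sum_add_distrib]
  refine sum_congr rfl fun x _ => ?_
  push_cast
  rw [show (M : ℤ) + x = x + M by ring, show (M : ℤ) + M + x = x + 2 * M by ring]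

theorem mass {p : E} (h : IsLaw p) (n : ℕ) : ∑ x ∈ range (3 ^ (n + 1)), p n (x : ℤ) = 1 := by
  induction n with
  | zero =>
    have h1 : (3 : ℕ) ^ (0 + 1) = 3 := by norm_num
    rw [h1, sum_range_succ, sum_range_succ, sum_range_succ, sum_range_zero]
    have := h.zero
    have := h.one
    push_cast
    linarith
  | succ n ih =>
    rw [pow_succ, mul_comm, sum_split3 (p (n + 1)) (3 ^ (n + 1)), ← ih]
    refine sum_congr rfl fun x _ => ?_
    rw [h.cons n x]
    push_cast
    rfl

theorem le_one {p : E} (h : IsLaw p) (n : ℕ) (x : ℤ) : p n x ≤ 1 := by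
  rw [per_emod h, ← mass h n]
  have h0 : 0 ≤ x % 3 ^ (n + 1) := Int.emod_nonneg _ (by positivity)
  have h1 : x % 3 ^ (n + 1) < 3 ^ (n + 1) := Int.emod_lt_of_pos _ (by positivity)
  obtain ⟨y, hy⟩ := Int.eq_ofNat_of_zero_le h0
  rw [hy] at h1 ⊢
  exact single_le_sum (f := fun z : ℕ => p n (z : ℤ)) (fun z _ => h.nonneg n z) (mem_range.mpr (by exact_mod_cast h1))

/-! ### linearity and continuity -/

theorem EE_add (p q : E) (n : ℕ) (f : ℤ → ℝ) : EE (p + q) n f = EE p n f + EE q n f := by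
  unfold EE
  rw [← sum_add_distrib]
  refine sum_congr rfl fun x _ => ?_
  simp only [Pi.add_apply]
  ring

theorem EE_smul (c : ℝ) (p : E) (n : ℕ) (f : ℤ → ℝ) : EE (c • p) n f = c * EE p n f := by
  unfold EE
  rw [mul_sum]
  refine sum_congr rfl fun x _ => ?_
  simp only [Pi.smul_apply, smul_eq_mul]
  ring

theorem EE_sub (p q : E) (n : ℕ) (f : ℤ → ℝ) : EE (p - q) n f = EE p n f - EE q n f := by
  unfold EE
  rw [← sum_sub_distrib]
  refine sum_congr rfl fun x _ => ?_
  simp only [Pi.sub_apply]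
  ring

theorem EE_sum {ι : Type*} (s : Finset ι) (p : ι → E) (n : ℕ) (f : ℤ → ℝ) :
    EE (∑ i ∈ s, p i) n f = ∑ i ∈ s, EE (p i) n f := by
  classical
  induction s using Finset.induction_on with
  | empty => simp [EE]
  | insert a s ha ih => rw [sum_insert ha, sum_insert ha, EE_add, ih]

theorem push_add (K : Ker) (p q : E) : K.push (p + q) = K.push p + K.push q := by
  funext n z
  exact EE_add _ _ _ _

theorem push_smul (K : Ker) (c : ℝ) (p : E) : K.push (c • p) = c • K.push p := by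
  funext n z
  exact EE_smul _ _ _ _

theorem push_sub (K : Ker) (p q : E) : K.push (p - q) = K.push p - K.push q := by
  funext n z
  exact EE_sub _ _ _ _

theorem push_sum (K : Ker) {ι : Type*} (s : Finset ι) (p : ι → E) : K.push (∑ i ∈ s, p i) = ∑ i ∈ s, K.push (p i) := by
  funext n z
  have := EE_sum s p (n + K.k) (K.P (ic n z))
  simp only [Finset.sum_apply]
  exact this

theorem continuous_eval (n : ℕ) (x : ℤ) : Continuous (fun p : E => p n x) := by fun_prop

theorem continuous_EE (n : ℕ) (f : ℤ → ℝ) : Continuous (fun p : E => EE p n f) := by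
  unfold EE
  refine continuous_finsetSum _ fun x _ => ?_
  exact (continuous_eval n x).mul continuous_const

theorem continuous_push (K : Ker) : Continuous (K.push : E → E) := by
  refine continuous_pi fun n => continuous_pi fun z => ?_
  exact continuous_EE _ _

theorem continuous_hh (n : ℕ) : Continuous (fun p : E => hh p n) := by
  unfold hh
  refine continuous_finsetSum _ fun x _ => ?_
  exact Real.continuous_negMulLog.comp (continuous_eval n x)

/-! ### compactness of the laws -/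

theorem isClosed_laws : IsClosed {p : E | IsLaw p} := by
  have h : {p : E | IsLaw p} = (⋂ n, ⋂ x, {p : E | 0 ≤ p n x}) ∩ (⋂ n, ⋂ x : ℤ, {p : E | p n (x + 3 ^ (n + 1)) = p n x}) ∩
      (⋂ n, ⋂ x : ℤ, {p : E | p n x = p (n + 1) x + p (n + 1) (x + 3 ^ (n + 1)) + p (n + 1) (x + 2 * 3 ^ (n + 1))}) ∩
      {p : E | p 0 0 = 0} ∩ {p : E | p 0 1 + p 0 2 = 1} := by
    ext p
    simp only [Set.mem_ofPred_eq, Set.mem_inter_iff, Set.mem_iInter]
    constructor
    · intro h
      exact ⟨⟨⟨⟨h.nonneg, h.per⟩, h.cons⟩, h.zero⟩, h.one⟩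
    · rintro ⟨⟨⟨⟨h1, h2⟩, h3⟩, h4⟩, h5⟩
      exact ⟨h1, h2, h3, h4, h5⟩
  rw [h]
  refine IsClosed.inter (IsClosed.inter (IsClosed.inter (IsClosed.inter ?_ ?_) ?_) ?_) ?_
  · exact isClosed_iInter fun n => isClosed_iInter fun x => isClosed_le continuous_const (continuous_eval n x)
  · exact isClosed_iInter fun n => isClosed_iInter fun x => isClosed_eq (continuous_eval n _) (continuous_eval n x)
  · exact isClosed_iInter fun n => isClosed_iInter fun x => isClosed_eq (continuous_eval n _)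
      (((continuous_eval _ _).add (continuous_eval _ _)).add (continuous_eval _ _))
  · exact isClosed_eq (continuous_eval _ _) continuous_const
  · exact isClosed_eq ((continuous_eval _ _).add (continuous_eval _ _)) continuous_const

theorem isCompact_laws : IsCompact {p : E | IsLaw p} := by
  have hK : IsCompact (Set.pi Set.univ (fun _ : ℕ => Set.pi Set.univ (fun _ : ℤ => Set.Icc (0 : ℝ) 1))) :=
    isCompact_univ_pi fun _ => isCompact_univ_pi fun _ => isCompact_Icc
  refine hK.of_isClosed_subset isClosed_laws ?_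
  intro p hp n _ x _
  exact ⟨IsLaw.nonneg hp n x, le_one hp n x⟩

theorem law_comb {p q : E} (hp : IsLaw p) (hq : IsLaw q) {a b : ℝ} (ha : 0 ≤ a) (hb : 0 ≤ b) (hab : a + b = 1) :
    IsLaw (a • p + b • q) := by
  constructor
  · intro n x
    have := hp.nonneg n x
    have := hq.nonneg n x
    simp only [Pi.add_apply, Pi.smul_apply, smul_eq_mul]
    positivity
  · intro n x
    simp only [Pi.add_apply, Pi.smul_apply, smul_eq_mul, hp.per, hq.per]
  · intro n x
    simp only [Pi.add_apply, Pi.smul_apply, smul_eq_mul]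
    rw [hp.cons n x, hq.cons n x]
    ring
  · simp only [Pi.add_apply, Pi.smul_apply, smul_eq_mul, hp.zero, hq.zero]
    ring
  · simp only [Pi.add_apply, Pi.smul_apply, smul_eq_mul]
    have h1 := hp.one
    have h2 := hq.one
    linear_combination a * h1 + b * h2 + hab

theorem law_sum {ι : Type*} (s : Finset ι) (w : ι → ℝ) (p : ι → E) (hw : ∀ i ∈ s, 0 ≤ w i) (h1 : ∑ i ∈ s, w i = 1)
    (hp : ∀ i ∈ s, IsLaw (p i)) : IsLaw (∑ i ∈ s, w i • p i) := by
  have hev : ∀ n x, (∑ i ∈ s, w i • p i) n x = ∑ i ∈ s, w i * p i n x := by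
    intro n x
    simp only [Finset.sum_apply, Pi.smul_apply, smul_eq_mul]
  constructor
  · intro n x
    rw [hev]
    exact sum_nonneg fun i hi => mul_nonneg (hw i hi) ((hp i hi).nonneg n x)
  · intro n x
    rw [hev, hev]
    exact sum_congr rfl fun i hi => by rw [(hp i hi).per]
  · intro n x
    rw [hev, hev, hev, hev, ← sum_add_distrib, ← sum_add_distrib]
    exact sum_congr rfl fun i hi => by rw [(hp i hi).cons n x]; ring
  · rw [hev]
    exact sum_eq_zero fun i hi => by rw [(hp i hi).zero, mul_zero]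
  · rw [hev, hev, ← sum_add_distrib, ← h1]
    exact sum_congr rfl fun i hi => by rw [← mul_add, (hp i hi).one, mul_one]

/-! ### Cesàro averages -/

/-- Cesàro average -/
noncomputable def avg (K : Ker) (N : ℕ) (q : E) : E := ∑ l ∈ range N, (N : ℝ)⁻¹ • K.push^[l] q

theorem iter_law {K : Ker} (hpush : ∀ p, IsLaw p → IsLaw (K.push p)) {q : E} (hq : IsLaw q) (l : ℕ) :
    IsLaw (K.push^[l] q) := by
  induction l with
  | zero => exact hq
  | succ l ih => rw [Function.iterate_succ_apply']; exact hpush _ ih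

theorem avg_law {K : Ker} (hpush : ∀ p, IsLaw p → IsLaw (K.push p)) {q : E} (hq : IsLaw q) {N : ℕ} (hN : 1 ≤ N) :
    IsLaw (avg K N q) := by
  unfold avg
  refine law_sum _ (fun _ => (N : ℝ)⁻¹) _ (fun _ _ => by positivity) ?_ fun l _ => iter_law hpush hq l
  rw [sum_const, card_range, nsmul_eq_mul]
  have : (N : ℝ) ≠ 0 := by positivity
  field_simp

theorem push_avg_sub (K : Ker) (N : ℕ) (q : E) :
    K.push (avg K N q) - avg K N q = (N : ℝ)⁻¹ • (K.push^[N] q - q) := by
  unfold avg
  rw [push_sum, ← sum_sub_distrib]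
  have h1 : ∀ l ∈ range N, K.push ((N : ℝ)⁻¹ • K.push^[l] q) - (N : ℝ)⁻¹ • K.push^[l] q =
      (N : ℝ)⁻¹ • K.push^[l + 1] q - (N : ℝ)⁻¹ • K.push^[l] q := by
    intro l _
    rw [push_smul, Function.iterate_succ_apply']
  rw [sum_congr rfl h1, sum_range_sub (fun l => (N : ℝ)⁻¹ • K.push^[l] q), smul_sub]
  rfl

theorem avg_cluster {K : Ker} (hpush : ∀ p, IsLaw p → IsLaw (K.push p)) (Ns : ℕ → ℕ) (hN : ∀ i, i + 1 ≤ Ns i)
    (q : ℕ → E) (hq : ∀ i, IsLaw (q i)) :
    ∃ ρ : E, Stat K ρ ∧ ∃ φ : ℕ → ℕ, StrictMono φ ∧ Tendsto (fun i => avg K (Ns (φ i)) (q (φ i))) atTop (𝓝 ρ) := by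
  obtain ⟨ρ, hρ, φ, hφ, hlim⟩ := isCompact_laws.tendsto_subseq (x := fun i => avg K (Ns i) (q i))
    (fun i => avg_law hpush (hq i) (by have := hN i; omega))
  refine ⟨ρ, ⟨hρ, ?_⟩, φ, hφ, hlim⟩
  have h1 : Tendsto (fun i => K.push (avg K (Ns (φ i)) (q (φ i)))) atTop (𝓝 (K.push ρ)) :=
    ((continuous_push K).tendsto ρ).comp hlim
  funext n x
  have h2 : Tendsto (fun i => K.push (avg K (Ns (φ i)) (q (φ i))) n x - avg K (Ns (φ i)) (q (φ i)) n x) atTop
      (𝓝 (K.push ρ n x - ρ n x)) :=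
    (((continuous_eval n x).tendsto _).comp h1).sub (((continuous_eval n x).tendsto _).comp hlim)
  have h3 : Tendsto (fun i => K.push (avg K (Ns (φ i)) (q (φ i))) n x - avg K (Ns (φ i)) (q (φ i)) n x) atTop (𝓝 0) := by
    have h4 : Tendsto (fun i : ℕ => ((i : ℝ) + 1)⁻¹) atTop (𝓝 0) := by
      simpa [one_div] using tendsto_one_div_add_atTop_nhds_zero_nat (𝕜 := ℝ)
    refine squeeze_zero_norm (fun i => ?_) h4
    have h5 := congrFun (congrFun (push_avg_sub K (Ns (φ i)) (q (φ i))) n) x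
    simp only [Pi.sub_apply, Pi.smul_apply, smul_eq_mul] at h5
    rw [h5, norm_mul, Real.norm_eq_abs, Real.norm_eq_abs]
    have h6 : |K.push^[Ns (φ i)] (q (φ i)) n x - q (φ i) n x| ≤ 1 := by
      have a1 := (iter_law hpush (hq (φ i)) (Ns (φ i))).nonneg n x
      have a2 := le_one (iter_law hpush (hq (φ i)) (Ns (φ i))) n x
      have a3 := (hq (φ i)).nonneg n x
      have a4 := le_one (hq (φ i)) n x
      rw [abs_le]
      constructor <;> linarith
    have h7 : |((Ns (φ i) : ℕ) : ℝ)⁻¹| ≤ ((i : ℝ) + 1)⁻¹ := by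
      rw [abs_of_nonneg (by positivity)]
      have h8 : i ≤ φ i := hφ.id_le i
      have h9 := hN (φ i)
      have h10 : (i : ℝ) + 1 ≤ (Ns (φ i) : ℝ) := by
        have : i + 1 ≤ Ns (φ i) := by omega
        exact_mod_cast this
      exact inv_anti₀ (by positivity) h10
    calc |((Ns (φ i) : ℕ) : ℝ)⁻¹| * |K.push^[Ns (φ i)] (q (φ i)) n x - q (φ i) n x|
        ≤ ((i : ℝ) + 1)⁻¹ * 1 := mul_le_mul h7 h6 (abs_nonneg _) (by positivity)
      _ = _ := mul_one _
  have h5 := tendsto_nhds_unique h2 h3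
  linarith

/-! ### extreme stationary laws -/

theorem isClosed_stat (K : Ker) : IsClosed {p : E | Stat K p} := by
  have : {p : E | Stat K p} = {p : E | IsLaw p} ∩ {p : E | K.push p = p} := by
    ext p; rfl
  rw [this]
  exact isClosed_laws.inter (isClosed_eq (continuous_push K) continuous_id)

theorem isCompact_stat (K : Ker) : IsCompact {p : E | Stat K p} :=
  isCompact_laws.of_isClosed_subset (isClosed_stat K) fun _ hp => hp.1

theorem ext_of_extreme {K : Ker} {p : E} (hp : p ∈ ({p : E | Stat K p}).extremePoints ℝ) : Ext K p := by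
  refine ⟨hp.1, ?_⟩
  intro ρ hρ M hM
  have hps : Stat K p := hp.1
  -- replace M by a number larger than one
  obtain ⟨M', hM'1, hM'⟩ : ∃ M' : ℝ, 1 < M' ∧ ∀ n x, ρ n x ≤ M' * p n x := by
    refine ⟨max M 1 + 1, ?_, ?_⟩
    · have := le_max_right M 1
      linarith
    · intro n x
      refine (hM n x).trans ?_
      have h1 := hps.1.nonneg n x
      have h2 : M ≤ max M 1 + 1 := by
        have := le_max_left M 1
        linarith
      exact mul_le_mul_of_nonneg_right h2 h1
  have hpos : 0 < M' - 1 := by linarith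
  have hpos' : 0 < M' := by linarith
  set σ : E := (M' - 1)⁻¹ • (M' • p - ρ) with hσ
  have hσev : ∀ n x, σ n x = (M' - 1)⁻¹ * (M' * p n x - ρ n x) := by
    intro n x; rfl
  have hσlaw : IsLaw σ := by
    constructor
    · intro n x
      rw [hσev]
      exact mul_nonneg (by positivity) (by have := hM' n x; linarith)
    · intro n x
      rw [hσev, hσev, hps.1.per, hρ.1.per]
    · intro n x
      rw [hσev, hσev, hσev, hσev, hps.1.cons n x, hρ.1.cons n x]
      ring
    · rw [hσev, hps.1.zero, hρ.1.zero]; ring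
    · rw [hσev, hσev]
      have h1 := hps.1.one
      have h2 := hρ.1.one
      have h3 : M' * p 0 1 - ρ 0 1 + (M' * p 0 2 - ρ 0 2) = M' - 1 := by linear_combination M' * h1 - h2
      rw [← mul_add, h3]
      field_simp
  have hσst : Stat K σ := by
    refine ⟨hσlaw, ?_⟩
    rw [hσ, push_smul, push_sub, push_smul, hps.2, hρ.2]
  have hseg : p ∈ openSegment ℝ ρ σ := by
    refine ⟨M'⁻¹, M'⁻¹ * (M' - 1), by positivity, by positivity, by field_simp; ring, ?_⟩
    funext n x
    simp only [Pi.add_apply, Pi.smul_apply, smul_eq_mul, hσev]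
    field_simp
    ring
  exact hp.2 hρ hσst hseg

/-- the maximum of a continuous linear functional over the stationary laws is attained at an extreme law -/
theorem exists_ext (K : Ker) (n : ℕ) (f : ℤ → ℝ) {q : E} (hq : Stat K q) : ∃ p, Ext K p ∧ EE q n f ≤ EE p n f := by
  set F : E →L[ℝ] ℝ := ⟨⟨⟨fun p => EE p n f, fun p q => EE_add p q n f⟩, fun c p => EE_smul c p n f⟩, continuous_EE n f⟩ with hF
  have hFev : ∀ p, F p = EE p n f := fun p => rfl
  have hS := isCompact_stat K
  have hne : ({p : E | Stat K p}).Nonempty := ⟨q, hq⟩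
  have hexp : IsExposed ℝ {p : E | Stat K p} (F.toExposed {p : E | Stat K p}) := ContinuousLinearMap.toExposed.isExposed
  obtain ⟨p0, hp0, hmax⟩ := hS.exists_isMaxOn hne (continuous_EE n f).continuousOn
  have hne' : (F.toExposed {p : E | Stat K p}).Nonempty := by
    refine ⟨p0, hp0, fun y hy => hmax hy⟩
  have hcomp : IsCompact (F.toExposed {p : E | Stat K p}) := hexp.isCompact hS
  obtain ⟨p, hp⟩ := hcomp.extremePoints_nonempty hne'
  have hp' : p ∈ ({p : E | Stat K p}).extremePoints ℝ := hexp.isExtreme.extremePoints_subset_extremePoints hp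
  refine ⟨p, ext_of_extreme hp', ?_⟩
  exact hp.1.2 q hq

end Pool.Agent.Helper1.Q1
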