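import Pool.Agent.Helper3.Q1.Laws
import Pool.Agent.Helper3.Q1.StepS
import Pool.Agent.Helper1.Q1.Top

/-! The facts on laws used in part (II) and in the uniform ergodic bound. -/

namespace Pool.Agent.Helper1.Q1

open Finset Pool.Agent.Helper3.Q1

theorem push_law (K : Ker) {p : E} (h : IsLaw p) : IsLaw (K.push p) := K.push_law h

theorem P_iter_per (K : Ker) (l n : ℕ) (f : ℤ → ℝ) (hf : ∀ x, f (x + 3 ^ (n + 1)) = f x) (x : ℤ) :
    (K.P^[l] f) (x + 3 ^ (n + K.k * l + 1)) = (K.P^[l] f) x := K.P_iter_pr (n := n) hf l x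

theorem EE_push_iter (K : Ker) {p : E} (h : IsLaw p) (l n : ℕ) (f : ℤ → ℝ) (hf : ∀ x, f (x + 3 ^ (n + 1)) = f x) :
    EE (K.push^[l] p) n f = EE p (n + K.k * l) (K.P^[l] f) := by
  induction l generalizing n f with
  | zero => simp
  | succ l ih =>
    rw [Function.iterate_succ_apply', K.EE_push (n := n) hf, ih (n + K.k) (K.P f) (K.P_pr (n := n) hf),
      Function.iterate_succ_apply]
    congr 1
    ring

theorem hh_sub {p : E} (h : IsLaw p) (s r : ℕ) : hh p (s + r) - hh p s = ∑ x ∈ range (3 ^ (s + 1)), nent p s r (x : ℤ) :=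
  hh_nent h s r

theorem LL_sum {ι : Type*} (s : Finset ι) (a b : ι → ℝ) (ha : ∀ i ∈ s, 0 ≤ a i) (hab : ∀ i ∈ s, a i ≤ b i) :
    ∑ i ∈ s, LL (a i) (b i) ≤ LL (∑ i ∈ s, a i) (∑ i ∈ s, b i) :=
  Pool.Agent.Helper3.Q1.LL_sum s a b ha (fun i hi => (ha i hi).trans (hab i hi))
    (fun i hi h0 => le_antisymm (h0 ▸ hab i hi) (ha i hi))

end Pool.Agent.Helper1.Q1
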