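import Pool.Agent.Helper1.Q1.Glue

/-! Part (II): for extreme stationary laws the entropy of cells cannot exceed the average. -/

namespace Pool.Agent.Helper1.Q1

open Finset Pool.Agent.Helper3.Q1 Filter Topology

/-! ### elementary facts on laws -/

theorem step_le {p : E} (h : IsLaw p) (n : ℕ) (x : ℤ) : p (n + 1) x ≤ p n x := by
  rw [h.cons n x]
  have := h.nonneg (n + 1) (x + 3 ^ (n + 1))
  have := h.nonneg (n + 1) (x + 2 * 3 ^ (n + 1))
  linarith

theorem add_le {p : E} (h : IsLaw p) (n r : ℕ) (x : ℤ) : p (n + r) x ≤ p n x := by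
  induction r with
  | zero => exact le_refl _
  | succ r ih => exact (step_le h (n + r) x).trans ih

theorem zero_of_dvd {p : E} (h : IsLaw p) (n : ℕ) {x : ℤ} (hx : (3 : ℤ) ∣ x) : p n x = 0 := by
  have h1 : p n x ≤ p 0 x := by
    have := add_le h 0 n x
    rwa [zero_add] at this
  have h2 : p 0 x = 0 := by
    rw [per_emod h 0 x]
    have : x % 3 ^ (0 + 1) = 0 := by
      rw [zero_add, pow_one]
      exact Int.emod_eq_zero_of_dvd hx
    rw [this, h.zero]
  exact le_antisymm (h1.trans h2.le) (h.nonneg n x)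

theorem fper {f : ℤ → ℝ} {P : ℤ} (hf : ∀ x, f (x + P) = f x) (x m : ℤ) : f (x + P * m) = f x := by
  have hn : ∀ (m : ℕ) (x : ℤ), f (x + P * (m : ℤ)) = f x := by
    intro m
    induction m with
    | zero => intro x; simp
    | succ m ih =>
      intro x
      rw [← ih x, ← hf (x + P * (m : ℤ))]
      congr 1
      push_cast
      ring
  obtain ⟨k, rfl | rfl⟩ := Int.eq_nat_or_neg m
  · exact hn k x
  · rw [← hn k (x + P * -(k : ℤ))]
    congr 1
    ring

theorem EE_succ {p : E} (h : IsLaw p) (n : ℕ) (f : ℤ → ℝ) (hf : ∀ x, f (x + 3 ^ (n + 1)) = f x) :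
    EE p (n + 1) f = EE p n f := by
  unfold EE
  rw [pow_succ, mul_comm, sum_split3 (fun x => p (n + 1) x * f x) (3 ^ (n + 1))]
  refine sum_congr rfl fun x _ => ?_
  have h1 : f ((x : ℤ) + ((3 ^ (n + 1) : ℕ) : ℤ)) = f (x : ℤ) := by
    push_cast
    exact hf x
  have h2 : f ((x : ℤ) + 2 * ((3 ^ (n + 1) : ℕ) : ℤ)) = f (x : ℤ) := by
    push_cast
    have := fper hf (x : ℤ) 2
    rw [mul_comm]
    exact this
  rw [h1, h2, h.cons n x]
  push_cast
  ring

theorem EE_add_level {p : E} (h : IsLaw p) (n r : ℕ) (f : ℤ → ℝ) (hf : ∀ x, f (x + 3 ^ (n + 1)) = f x) :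
    EE p (n + r) f = EE p n f := by
  induction r with
  | zero => rfl
  | succ r ih =>
    rw [← ih, ← add_assoc]
    refine EE_succ h (n + r) f fun x => ?_
    have := fper hf x (3 ^ r)
    rw [← this]
    congr 2
    ring

theorem EE_mono {p q : E} {n : ℕ} {f : ℤ → ℝ} (hf : ∀ x, 0 ≤ f x) (hpq : ∀ x, p n x ≤ q n x) : EE p n f ≤ EE q n f := by
  unfold EE
  exact sum_le_sum fun x _ => mul_le_mul_of_nonneg_right (hpq _) (hf _)

theorem ic_nonneg (n : ℕ) (z x : ℤ) : 0 ≤ ic n z x := by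
  unfold ic; split_ifs <;> norm_num

theorem ic_per (n : ℕ) (z x : ℤ) : ic n z (x + 3 ^ (n + 1)) = ic n z x := by
  unfold ic
  have : (3 : ℤ) ^ (n + 1) ∣ x + 3 ^ (n + 1) - z ↔ (3 : ℤ) ^ (n + 1) ∣ x - z := by
    rw [show x + 3 ^ (n + 1) - z = (x - z) + 3 ^ (n + 1) by ring]
    exact Int.dvd_add_left (dvd_refl _)
  simp only [this]

theorem ic_per' (n : ℕ) (z x : ℤ) : ic n (z + 3 ^ (n + 1)) x = ic n z x := by
  unfold ic
  have : (3 : ℤ) ^ (n + 1) ∣ x - (z + 3 ^ (n + 1)) ↔ (3 : ℤ) ^ (n + 1) ∣ x - z := by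
    rw [show x - (z + 3 ^ (n + 1)) = (x - z) - 3 ^ (n + 1) by ring]
    constructor
    · intro h
      have := dvd_add h (dvd_refl ((3 : ℤ) ^ (n + 1)))
      simpa using this
    · intro h
      exact dvd_sub h (dvd_refl _)
  simp only [this]

theorem EE_ic {p : E} (h : IsLaw p) (n : ℕ) (z : ℤ) : EE p n (ic n z) = p n z := by
  unfold EE
  have h0 : 0 ≤ z % 3 ^ (n + 1) := Int.emod_nonneg _ (by positivity)
  have h1 : z % 3 ^ (n + 1) < 3 ^ (n + 1) := Int.emod_lt_of_pos _ (by positivity)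
  obtain ⟨y, hy⟩ := Int.eq_ofNat_of_zero_le h0
  rw [hy] at h1
  have hy' : y ∈ range (3 ^ (n + 1)) := mem_range.mpr (by exact_mod_cast h1)
  rw [sum_eq_single_of_mem y hy']
  · rw [per_emod h n z, hy]
    have : ic n z (y : ℤ) = 1 := by
      unfold ic
      rw [if_pos]
      rw [← Int.dvd_neg, show -((y : ℤ) - z) = z - y by ring, ← hy]
      exact Int.dvd_self_sub_emod
    rw [this, mul_one]
  · intro x hx hxy
    have : ic n z (x : ℤ) = 0 := by
      unfold ic
      rw [if_neg]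
      intro hd
      apply hxy
      have h2 : (x : ℤ) % 3 ^ (n + 1) = z % 3 ^ (n + 1) := by
        exact Int.emod_eq_emod_iff_emod_sub_eq_zero.mpr (Int.emod_eq_zero_of_dvd hd)
      rw [hy, Int.emod_eq_of_lt (by positivity) (by have := mem_range.mp hx; exact_mod_cast this)] at h2
      exact_mod_cast h2
    rw [this, mul_zero]

theorem ic_split (n : ℕ) (z x : ℤ) :
    ic n z x = ic (n + 1) z x + ic (n + 1) (z + 3 ^ (n + 1)) x + ic (n + 1) (z + 2 * 3 ^ (n + 1)) x := by
  have hP : (0 : ℤ) < 3 ^ (n + 1) := by positivity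
  have h2 : (3 : ℤ) ^ (n + 1 + 1) = 3 ^ (n + 1) * 3 := pow_succ _ _
  by_cases hd : (3 : ℤ) ^ (n + 1) ∣ x - z
  · obtain ⟨m, hm⟩ := hd
    have e0 : ic n z x = 1 := by unfold ic; rw [if_pos ⟨m, hm⟩]
    have e1 : (3 : ℤ) ^ (n + 1 + 1) ∣ x - z ↔ 3 ∣ m := by
      rw [hm, h2]; exact mul_dvd_mul_iff_left hP.ne'
    have e2 : (3 : ℤ) ^ (n + 1 + 1) ∣ x - (z + 3 ^ (n + 1)) ↔ 3 ∣ m - 1 := by
      rw [show x - (z + 3 ^ (n + 1)) = (x - z) - 3 ^ (n + 1) by ring, hm, h2,
        show (3 : ℤ) ^ (n + 1) * m - 3 ^ (n + 1) = 3 ^ (n + 1) * (m - 1) by ring]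
      exact mul_dvd_mul_iff_left hP.ne'
    have e3 : (3 : ℤ) ^ (n + 1 + 1) ∣ x - (z + 2 * 3 ^ (n + 1)) ↔ 3 ∣ m - 2 := by
      rw [show x - (z + 2 * 3 ^ (n + 1)) = (x - z) - 2 * 3 ^ (n + 1) by ring, hm, h2,
        show (3 : ℤ) ^ (n + 1) * m - 2 * 3 ^ (n + 1) = 3 ^ (n + 1) * (m - 2) by ring]
      exact mul_dvd_mul_iff_left hP.ne'
    rw [e0]
    unfold ic
    simp only [e1, e2, e3]
    rcases (by omega : m % 3 = 0 ∨ m % 3 = 1 ∨ m % 3 = 2) with h | h | h
    · rw [if_pos (by omega), if_neg (by omega), if_neg (by omega)]; norm_num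
    · rw [if_neg (by omega), if_pos (by omega), if_neg (by omega)]; norm_num
    · rw [if_neg (by omega), if_neg (by omega), if_pos (by omega)]; norm_num
  · have hdd : (3 : ℤ) ^ (n + 1) ∣ 3 ^ (n + 1 + 1) := pow_dvd_pow _ (Nat.le_succ _)
    have e1 : ¬ (3 : ℤ) ^ (n + 1 + 1) ∣ x - z := fun h => hd (hdd.trans h)
    have e2 : ¬ (3 : ℤ) ^ (n + 1 + 1) ∣ x - (z + 3 ^ (n + 1)) := by
      intro h
      apply hd
      have h3 := dvd_add (hdd.trans h) (dvd_refl ((3 : ℤ) ^ (n + 1)))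
      rwa [show x - (z + 3 ^ (n + 1)) + 3 ^ (n + 1) = x - z by ring] at h3
    have e3 : ¬ (3 : ℤ) ^ (n + 1 + 1) ∣ x - (z + 2 * 3 ^ (n + 1)) := by
      intro h
      apply hd
      have h3 := dvd_add (hdd.trans h) (Dvd.intro_left 2 rfl : (3 : ℤ) ^ (n + 1) ∣ 2 * 3 ^ (n + 1))
      rwa [show x - (z + 2 * 3 ^ (n + 1)) + 2 * 3 ^ (n + 1) = x - z by ring] at h3
    unfold ic
    rw [if_neg hd, if_neg e1, if_neg e2, if_neg e3]
    norm_num

/-! ### reweighted laws -/

/-- the law with density `g` with respect to `p`, where `g` is of level `m` -/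
noncomputable def rw' (p : E) (m : ℕ) (g : ℤ → ℝ) : E := fun n x => EE p (n + m) (fun y => g y * ic n x y)

theorem rw_law {p : E} (h : IsLaw p) (m : ℕ) (g : ℤ → ℝ) (hg : ∀ x, 0 ≤ g x) (hper : ∀ x, g (x + 3 ^ (m + 1)) = g x)
    (h1 : EE p m g = 1) : IsLaw (rw' p m g) := by
  constructor
  · intro n x
    unfold rw' EE
    exact sum_nonneg fun y _ => mul_nonneg (h.nonneg _ _) (mul_nonneg (hg _) (ic_nonneg _ _ _))
  · intro n x
    unfold rw'
    congr 1
    funext y
    rw [ic_per']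
  · intro n x
    unfold rw'
    have e1 : EE p (n + 1 + m) (fun y => g y * ic n x y) = EE p (n + m) (fun y => g y * ic n x y) := by
      rw [show n + 1 + m = (n + m) + 1 by ring]
      refine EE_succ h (n + m) _ fun y => ?_
      have a1 : g (y + 3 ^ (n + m + 1)) = g y := by
        have := fper hper y (3 ^ n)
        rw [← this]; congr 2; ring
      have a2 : ic n x (y + 3 ^ (n + m + 1)) = ic n x y := by
        have := fper (ic_per n x) y (3 ^ m)
        rw [← this]; congr 2; ring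
      rw [a1, a2]
    rw [← e1]
    unfold EE
    rw [← sum_add_distrib, ← sum_add_distrib]
    refine sum_congr rfl fun y _ => ?_
    simp only []
    rw [ic_split n x y]
    ring
  · unfold rw' EE
    refine sum_eq_zero fun y _ => ?_
    simp only []
    by_cases hy : (3 : ℤ) ∣ (y : ℤ)
    · rw [zero_of_dvd h _ hy, zero_mul]
    · have : ic 0 0 (y : ℤ) = 0 := by
        unfold ic
        rw [if_neg]
        simpa using hy
      rw [this, mul_zero, mul_zero]
  · unfold rw' EE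
    rw [← sum_add_distrib, ← h1]
    unfold EE
    rw [zero_add]
    refine sum_congr rfl fun y _ => ?_
    simp only []
    by_cases hy : (3 : ℤ) ∣ (y : ℤ)
    · rw [zero_of_dvd h _ hy, zero_mul, zero_mul, zero_mul, zero_add]
    · have : ic 0 1 (y : ℤ) + ic 0 2 (y : ℤ) = 1 := by
        unfold ic
        rcases (by omega : (y : ℤ) % 3 = 1 ∨ (y : ℤ) % 3 = 2) with h | h
        · rw [if_pos (by omega), if_neg (by omega)]; norm_num
        · rw [if_neg (by omega), if_pos (by omega)]; norm_num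
      rw [← mul_add, ← mul_add, this, mul_one]

theorem rw_eq {p : E} (h : IsLaw p) (m : ℕ) (g : ℤ → ℝ) (hper : ∀ x, g (x + 3 ^ (m + 1)) = g x) (r : ℕ) (x : ℤ) :
    rw' p m g (m + r) x = g x * p (m + r) x := by
  unfold rw'
  have e1 : EE p (m + r + m) (fun y => g y * ic (m + r) x y) = EE p (m + r) (fun y => g y * ic (m + r) x y) := by
    refine EE_add_level h (m + r) m _ fun y => ?_
    have a1 : g (y + 3 ^ (m + r + 1)) = g y := by
      have := fper hper y (3 ^ r)
      rw [← this]; congr 2; ring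
    rw [a1, ic_per]
  rw [e1, ← EE_ic h (m + r) x]
  unfold EE
  rw [mul_sum]
  refine sum_congr rfl fun y _ => ?_
  simp only []
  by_cases hd : (3 : ℤ) ^ (m + r + 1) ∣ (y : ℤ) - x
  · have : g (y : ℤ) = g x := by
      obtain ⟨c, hc⟩ := hd
      have := fper hper x (3 ^ r * c)
      rw [← this]; congr 1
      have e : (y : ℤ) = x + 3 ^ (m + r + 1) * c := by linarith
      rw [e]; ring
    rw [this]; ring
  · have : ic (m + r) x (y : ℤ) = 0 := by unfold ic; rw [if_neg hd]
    rw [this, mul_zero, mul_zero, mul_zero]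

theorem rw_le {p : E} (h : IsLaw p) (m : ℕ) (g : ℤ → ℝ) {M : ℝ} (hM : ∀ x, g x ≤ M) (n : ℕ) (x : ℤ) :
    rw' p m g n x ≤ M * p n x := by
  unfold rw'
  rw [← EE_ic h n x, ← EE_add_level h n m (ic n x) (ic_per n x)]
  unfold EE
  rw [mul_sum]
  refine sum_le_sum fun y _ => ?_
  have h1 := h.nonneg (n + m) (y : ℤ)
  have h2 := ic_nonneg n x (y : ℤ)
  have h3 := mul_le_mul_of_nonneg_right (hM (y : ℤ)) (mul_nonneg h1 h2)
  linarith

/-! ### monotonicity of the push -/

theorem P_nonneg (K : Ker) {f : ℤ → ℝ} (hf : ∀ x, 0 ≤ f x) (x : ℤ) : 0 ≤ K.P f x := by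
  unfold Ker.P
  exact sum_nonneg fun w _ => mul_nonneg (K.nonneg _ _) (hf _)

theorem push_mono (K : Ker) {p q : E} (h : ∀ n x, p n x ≤ q n x) (n : ℕ) (x : ℤ) : K.push p n x ≤ K.push q n x := by
  unfold Ker.push
  exact EE_mono (fun x => P_nonneg K (ic_nonneg _ _) x) (h _)

theorem iter_le_mul (K : Ker) {p q : E} (hp : K.push p = p) {M : ℝ} (h : ∀ n x, q n x ≤ M * p n x) (l : ℕ) :
    ∀ n x, K.push^[l] q n x ≤ M * p n x := by
  induction l with
  | zero => exact h
  | succ l ih =>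
    intro n x
    rw [Function.iterate_succ_apply']
    have h1 : ∀ n x, K.push^[l] q n x ≤ (M • p) n x := ih
    have h2 := push_mono K h1 n x
    rw [push_smul, hp] at h2
    exact h2

/-! ### entropy facts -/

theorem LL_mul {c a b : ℝ} (hc : 0 ≤ c) (ha : 0 ≤ a) (hab : a ≤ b) : LL (c * a) (c * b) = c * LL a b := by
  unfold LL
  rcases hc.eq_or_lt with rfl | hc'
  · simp
  rcases ha.eq_or_lt with rfl | ha'
  · simp
  have hb : 0 < b := ha'.trans_le hab
  rw [Real.log_mul hc'.ne' hb.ne', Real.log_mul hc'.ne' ha'.ne']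
  ring

theorem LL_nonneg {a b : ℝ} (ha : 0 ≤ a) (hab : a ≤ b) : 0 ≤ LL a b := by
  unfold LL
  rcases ha.eq_or_lt with rfl | ha'
  · simp
  have : Real.log a ≤ Real.log b := Real.log_le_log ha' hab
  have := mul_le_mul_of_nonneg_left this ha
  linarith

theorem nent_nonneg {p : E} (h : IsLaw p) (s r : ℕ) (x : ℤ) : 0 ≤ nent p s r x := by
  unfold nent
  refine sum_nonneg fun v _ => LL_nonneg (h.nonneg _ _) ?_
  have := add_le h s r (x + 3 ^ (s + 1) * (v : ℤ))
  rwa [per_int h] at this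

theorem hh_mono {p : E} (h : IsLaw p) (s r : ℕ) : hh p s ≤ hh p (s + r) := by
  have := hh_sub h s r
  have h2 : 0 ≤ ∑ x ∈ range (3 ^ (s + 1)), nent p s r (x : ℤ) := sum_nonneg fun x _ => nent_nonneg h s r x
  linarith

/-- splitting the cells -/
theorem cell_sum {p : E} (h : IsLaw p) (s r : ℕ) (x : ℤ) :
    ∑ v ∈ range (3 ^ r), p (s + r) (x + 3 ^ (s + 1) * (v : ℤ)) = p s x := by
  induction r with
  | zero => simp
  | succ r ih =>
    have hsp := sum_split3 (fun v : ℤ => p (s + (r + 1)) (x + 3 ^ (s + 1) * v)) (3 ^ r)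
    rw [pow_succ, mul_comm, hsp, ← ih]
    refine sum_congr rfl fun v _ => ?_
    rw [h.cons (s + r)]
    have e : ∀ c : ℤ, x + 3 ^ (s + 1) * ((v : ℤ) + c * ((3 ^ r : ℕ) : ℤ)) = x + 3 ^ (s + 1) * (v : ℤ) + c * 3 ^ (s + r + 1) := by
      intro c; push_cast; ring
    have e1 := e 1
    have e2 := e 2
    rw [one_mul, one_mul] at e1
    rw [e1, e2]
    rfl

theorem card_log (s r : ℕ) {p : E} (h : IsLaw p) (x : ℤ) : nent p s r x ≤ p s x * (r * Real.log 3) := by
  unfold nent
  have hcs := cell_sum h s r x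
  -- Gibbs: compare with the uniform distribution
  rcases (h.nonneg s x).eq_or_lt with h0 | h0
  · have hz : ∀ v ∈ range (3 ^ r), LL (p (s + r) (x + 3 ^ (s + 1) * (v : ℤ))) (p s x) = 0 := by
      intro v hv
      have h1 : p (s + r) (x + 3 ^ (s + 1) * (v : ℤ)) ≤ p s x := by
        have := add_le h s r (x + 3 ^ (s + 1) * (v : ℤ))
        rwa [per_int h] at this
      have h2 : p (s + r) (x + 3 ^ (s + 1) * (v : ℤ)) = 0 := le_antisymm (by rw [← h0] at h1; exact h1) (h.nonneg _ _)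
      rw [h2]; simp [LL]
    rw [sum_eq_zero hz, ← h0, zero_mul]
  · have key : ∀ v ∈ range (3 ^ r), LL (p (s + r) (x + 3 ^ (s + 1) * (v : ℤ))) (p s x) ≤
        p (s + r) (x + 3 ^ (s + 1) * (v : ℤ)) * (r * Real.log 3) + (p s x / 3 ^ r - p (s + r) (x + 3 ^ (s + 1) * (v : ℤ))) := by
      intro v _
      set a := p (s + r) (x + 3 ^ (s + 1) * (v : ℤ)) with ha
      have ha0 : 0 ≤ a := h.nonneg _ _
      rcases ha0.eq_or_lt with h1 | h1
      · rw [← h1]; simp only [LL, zero_mul, sub_zero, zero_add]; positivity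
      · have h3 : (0 : ℝ) < 3 ^ r := by positivity
        have h2 : Real.log (p s x / (3 ^ r * a)) ≤ p s x / (3 ^ r * a) - 1 := Real.log_le_sub_one_of_pos (by positivity)
        rw [Real.log_div h0.ne' (by positivity), Real.log_mul h3.ne' h1.ne', Real.log_pow] at h2
        have h4 := mul_le_mul_of_nonneg_left h2 ha0
        have h5 : a * (p s x / (3 ^ r * a) - 1) = p s x / 3 ^ r - a := by field_simp
        rw [h5] at h4
        unfold LL
        linarith
    refine (sum_le_sum key).trans ?_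
    rw [sum_add_distrib, ← sum_mul, sum_sub_distrib, hcs, sum_const, card_range, nsmul_eq_mul]
    have : ((3 ^ r : ℕ) : ℝ) * (p s x / 3 ^ r) = p s x := by
      push_cast; field_simp
    rw [this]
    linarith

theorem hh_le {p : E} (h : IsLaw p) (s r : ℕ) : hh p (s + r) - hh p s ≤ r * Real.log 3 := by
  rw [hh_sub h s r]
  have h1 : ∑ x ∈ range (3 ^ (s + 1)), nent p s r (x : ℤ) ≤ ∑ x ∈ range (3 ^ (s + 1)), p s (x : ℤ) * (r * Real.log 3) :=
    sum_le_sum fun x _ => card_log s r h (x : ℤ)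
  refine h1.trans ?_
  rw [← sum_mul, mass h s, one_mul]

/-- iterated one-step inequality -/
theorem stepS_iter (hS : StepS) (K : Ker) {p : E} (h : IsLaw p) (l : ℕ) : ∀ s t : ℕ, s ≤ t →
    hh p (t + K.k * l) - hh p (s + K.k * l) ≤ hh (K.push^[l] p) t - hh (K.push^[l] p) s := by
  induction l with
  | zero => intro s t _; simp
  | succ l ih =>
    intro s t hst
    have h1 := ih (s + K.k) (t + K.k) (by omega)
    have h2 := hS K (K.push^[l] p) (iter_law (fun p hp => push_law K hp) h l) s t hst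
    rw [Function.iterate_succ_apply']
    have e1 : t + K.k * (l + 1) = t + K.k + K.k * l := by ring
    have e2 : s + K.k * (l + 1) = s + K.k + K.k * l := by ring
    rw [e1, e2]
    linarith

/-- difference of entropies as a sum of `LL` -/
theorem hh_sub_LL {p : E} (h : IsLaw p) (r : ℕ) :
    hh p r - hh p 0 = ∑ x ∈ range (3 ^ (0 + 1)), ∑ v ∈ range (3 ^ r), LL (p r ((x : ℤ) + 3 ^ (0 + 1) * (v : ℤ))) (p 0 (x : ℤ)) := by
  have := hh_sub h 0 r
  rw [zero_add] at this
  rw [this]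
  unfold nent
  simp only [zero_add]

/-- concavity of `q ↦ hh q r - hh q 0` on the laws -/
theorem concave {ι : Type*} (s : Finset ι) (w : ι → ℝ) (p : ι → E) (hw : ∀ i ∈ s, 0 ≤ w i) (h1 : ∑ i ∈ s, w i = 1)
    (hp : ∀ i ∈ s, IsLaw (p i)) (r : ℕ) :
    ∑ i ∈ s, w i * (hh (p i) r - hh (p i) 0) ≤ hh (∑ i ∈ s, w i • p i) r - hh (∑ i ∈ s, w i • p i) 0 := by
  rw [hh_sub_LL (law_sum s w p hw h1 hp)]
  have hev : ∀ n x, (∑ i ∈ s, w i • p i) n x = ∑ i ∈ s, w i * p i n x := by
    intro n x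
    simp only [Finset.sum_apply, Pi.smul_apply, smul_eq_mul]
  have e1 : ∑ i ∈ s, w i * (hh (p i) r - hh (p i) 0) = ∑ x ∈ range (3 ^ (0 + 1)), ∑ v ∈ range (3 ^ r),
      ∑ i ∈ s, LL (w i * p i r ((x : ℤ) + 3 ^ (0 + 1) * (v : ℤ))) (w i * p i 0 (x : ℤ)) := by
    have e2 : ∀ i ∈ s, w i * (hh (p i) r - hh (p i) 0) = ∑ x ∈ range (3 ^ (0 + 1)), ∑ v ∈ range (3 ^ r),
        LL (w i * p i r ((x : ℤ) + 3 ^ (0 + 1) * (v : ℤ))) (w i * p i 0 (x : ℤ)) := by
      intro i hi
      rw [hh_sub_LL (hp i hi), mul_sum]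
      refine sum_congr rfl fun x _ => ?_
      rw [mul_sum]
      refine sum_congr rfl fun v _ => ?_
      rw [LL_mul (hw i hi) ((hp i hi).nonneg _ _)]
      have := add_le (hp i hi) 0 r ((x : ℤ) + 3 ^ (0 + 1) * (v : ℤ))
      rw [zero_add, per_int (hp i hi)] at this
      exact this
    rw [sum_congr rfl e2, sum_comm]
    refine sum_congr rfl fun x _ => ?_
    rw [sum_comm]
  rw [e1]
  refine sum_le_sum fun x _ => sum_le_sum fun v _ => ?_
  rw [hev, hev]
  refine LL_sum s _ _ (fun i hi => mul_nonneg (hw i hi) ((hp i hi).nonneg _ _)) fun i hi => ?_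
  refine mul_le_mul_of_nonneg_left ?_ (hw i hi)
  have := add_le (hp i hi) 0 r ((x : ℤ) + 3 ^ (0 + 1) * (v : ℤ))
  rw [zero_add, per_int (hp i hi)] at this
  exact this

/-- telescoping: for a nondecreasing sequence -/
theorem telescope (g : ℕ → ℝ) (m N J : ℕ) (c : ℝ) (hg : Monotone g) (hc : ∀ j, j ≤ J → g (m + j) - g m ≤ c) :
    (J : ℝ) * (g (m + N) - g m) ≤ ∑ n ∈ range N, (g (m + n + J) - g (m + n)) + J * c := by
  have h1 : ∑ n ∈ range N, (g (m + n + J) - g (m + n)) = ∑ j ∈ range J, (g (m + N + j) - g (m + j)) := by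
    have h2 : ∀ n ∈ range N, g (m + n + J) - g (m + n) = ∑ j ∈ range J, (g (m + n + j + 1) - g (m + n + j)) := by
      intro n _
      have := sum_range_sub (fun j => g (m + n + j)) J
      rw [add_zero] at this
      rw [← this]
      rfl
    have h3 : ∀ j ∈ range J, g (m + N + j) - g (m + j) = ∑ n ∈ range N, (g (m + n + j + 1) - g (m + n + j)) := by
      intro j _
      have := sum_range_sub (fun n => g (m + n + j)) N
      rw [add_zero] at this
      rw [← this]
      refine sum_congr rfl fun n _ => ?_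
      rw [show m + (n + 1) + j = m + n + j + 1 by ring]
    rw [sum_congr rfl h2, sum_congr rfl h3, sum_comm]
  rw [h1]
  have h4 : ∀ j ∈ range J, g (m + N) - g m - c ≤ g (m + N + j) - g (m + j) := by
    intro j hj
    have := hc j (mem_range.mp hj).le
    have := hg (show m + N ≤ m + N + j by omega)
    linarith
  have h5 := sum_le_sum h4
  rw [sum_const, card_range, nsmul_eq_mul] at h5
  linarith

/-- uniform mean ergodicity below a multiple of an extreme law -/
theorem uniform_erg (K : Ker) {p : E} (hp : Ext K p) (M : ℝ) (r : ℕ) {ε : ℝ} (hε : 0 < ε) :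
    ∃ N0 : ℕ, ∀ N : ℕ, N0 ≤ N → ∀ q : E, IsLaw q → (∀ n x, q n x ≤ M * p n x) →
      hh (avg K N q) r - hh (avg K N q) 0 ≤ hh p r - hh p 0 + ε := by
  by_contra hcon
  push Not at hcon
  choose Ns hNs q hq hqM hgt using fun i : ℕ => hcon (i + 1)
  obtain ⟨ρ, hρ, φ, hφ, hlim⟩ := avg_cluster (K := K) (fun p hp => push_law K hp) Ns hNs q hq
  have hρM : ∀ n x, ρ n x ≤ M * p n x := by
    intro n x
    have h1 : Tendsto (fun i => avg K (Ns (φ i)) (q (φ i)) n x) atTop (𝓝 (ρ n x)) :=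
      ((continuous_eval n x).tendsto _).comp hlim
    refine le_of_tendsto h1 (Eventually.of_forall fun i => ?_)
    unfold avg
    simp only [Finset.sum_apply, Pi.smul_apply, smul_eq_mul]
    have h2 : ∀ l ∈ range (Ns (φ i)), ((Ns (φ i) : ℕ) : ℝ)⁻¹ * K.push^[l] (q (φ i)) n x ≤ ((Ns (φ i) : ℕ) : ℝ)⁻¹ * (M * p n x) := by
      intro l _
      exact mul_le_mul_of_nonneg_left (iter_le_mul K hp.1.2 (hqM (φ i)) l n x) (by positivity)
    refine (sum_le_sum h2).trans ?_
    rw [sum_const, card_range, nsmul_eq_mul]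
    have h3 : ((Ns (φ i) : ℕ) : ℝ) ≠ 0 := by
      have := hNs (φ i)
      have : 0 < Ns (φ i) := by omega
      positivity
    rw [← mul_assoc, mul_inv_cancel₀ h3, one_mul]
  have hρp : ρ = p := hp.2 ρ hρ M hρM
  have h4 : Tendsto (fun i => hh (avg K (Ns (φ i)) (q (φ i))) r - hh (avg K (Ns (φ i)) (q (φ i))) 0) atTop
      (𝓝 (hh ρ r - hh ρ 0)) :=
    (((continuous_hh r).tendsto _).comp hlim).sub (((continuous_hh 0).tendsto _).comp hlim)
  have h5 : hh p r - hh p 0 + ε ≤ hh ρ r - hh ρ 0 := ge_of_tendsto h4 (Eventually.of_forall fun i => (hgt (φ i)).le)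
  rw [hρp] at h5
  linarith

theorem partII (hS : StepS) : PartII := by
  intro K p hp β hβ μ hμ ε hε
  obtain ⟨J, hJ1, hJ⟩ := hβ (ε / 3) (by positivity)
  have hJpos : (0 : ℝ) < J := by exact_mod_cast hJ1
  obtain ⟨N0, hN0⟩ := uniform_erg K hp (μ⁻¹) (K.k * J) (ε := J * ε / 3) (by positivity)
  obtain ⟨N1, hN1⟩ := exists_nat_ge (3 * (J * (K.k * Real.log 3)) / ε)
  refine ⟨max (max N0 N1) 1, ?_⟩
  intro N hN m B hB hBμ
  have hNN0 : N0 ≤ N := by omega
  have hNN1 : N1 ≤ N := by omega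
  have hN1' : 1 ≤ N := by omega
  have hlaw := hp.1.1
  set b : ℝ := ∑ x ∈ B, p (K.k * m) (x : ℤ) with hb
  have hbpos : 0 < b := hμ.trans_le hBμ
  set s := K.k * m with hs
  -- the density
  set g : ℤ → ℝ := fun x => if (x % 3 ^ (s + 1)).toNat ∈ B then b⁻¹ else 0 with hg
  have hgnn : ∀ x, 0 ≤ g x := by
    intro x; simp only [hg]; split_ifs
    · positivity
    · exact le_refl _
  have hgper : ∀ x, g (x + 3 ^ (s + 1)) = g x := by
    intro x; simp only [hg, Int.add_emod_right]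
  have hgM : ∀ x, g x ≤ μ⁻¹ := by
    intro x; simp only [hg]; split_ifs
    · exact inv_anti₀ hμ hBμ
    · positivity
  have hgv : ∀ x ∈ range (3 ^ (s + 1)), g (x : ℤ) = if x ∈ B then b⁻¹ else 0 := by
    intro x hx
    simp only [hg]
    have : ((x : ℤ) % 3 ^ (s + 1)).toNat = x := by
      rw [Int.emod_eq_of_lt (by positivity) (by have := mem_range.mp hx; exact_mod_cast this)]
      simp
    rw [this]
  have hEg : EE p s g = 1 := by
    unfold EE
    have h1 : ∀ x ∈ range (3 ^ (s + 1)), p s (x : ℤ) * g (x : ℤ) = if x ∈ B then p s (x : ℤ) * b⁻¹ else 0 := by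
      intro x hx
      rw [hgv x hx]
      split_ifs <;> simp
    rw [sum_congr rfl h1, ← sum_filter, filter_mem_eq_inter, inter_eq_right.mpr hB, ← sum_mul, ← hb]
    field_simp
  set lam : E := rw' p s g with hlam
  have hlaml : IsLaw lam := rw_law hlaw s g hgnn hgper hEg
  have hlamM : ∀ n x, lam n x ≤ μ⁻¹ * p n x := fun n x => rw_le hlaw s g hgM n x
  -- the entropy of lam above level s
  have hent : hh lam (s + K.k * N) - hh lam s = b⁻¹ * ∑ x ∈ B, nent p s (K.k * N) (x : ℤ) := by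
    rw [hh_sub hlaml]
    have h1 : ∀ x ∈ range (3 ^ (s + 1)), nent lam s (K.k * N) (x : ℤ) = if x ∈ B then b⁻¹ * nent p s (K.k * N) (x : ℤ) else 0 := by
      intro x hx
      have h2 : nent lam s (K.k * N) (x : ℤ) = g (x : ℤ) * nent p s (K.k * N) (x : ℤ) := by
        unfold nent
        rw [mul_sum]
        refine sum_congr rfl fun v _ => ?_
        have e1 : lam (s + K.k * N) ((x : ℤ) + 3 ^ (s + 1) * (v : ℤ)) = g (x : ℤ) * p (s + K.k * N) ((x : ℤ) + 3 ^ (s + 1) * (v : ℤ)) := by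
          rw [hlam, rw_eq hlaw s g hgper, fper hgper]
        have e2 : lam s (x : ℤ) = g (x : ℤ) * p s (x : ℤ) := by
          have := rw_eq hlaw s g hgper 0 (x : ℤ)
          rwa [add_zero] at this
        rw [e1, e2]
        refine LL_mul (hgnn _) (hlaw.nonneg _ _) ?_
        have := add_le hlaw s (K.k * N) ((x : ℤ) + 3 ^ (s + 1) * (v : ℤ))
        rwa [per_int hlaw] at this
      rw [h2, hgv x hx]
      split_ifs <;> simp
    rw [sum_congr rfl h1, ← sum_filter, filter_mem_eq_inter, inter_eq_right.mpr hB, mul_sum]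
  -- the telescoping
  set G : ℕ → ℝ := fun n => hh lam (K.k * n) with hG
  have hGmono : Monotone G := by
    refine monotone_nat_of_le_succ fun n => ?_
    simp only [hG]
    rw [mul_add, mul_one]
    exact hh_mono hlaml _ _
  have hGc : ∀ j, j ≤ J → G (m + j) - G m ≤ J * (K.k * Real.log 3) := by
    intro j hj
    simp only [hG]
    rw [mul_add]
    refine (hh_le hlaml _ _).trans ?_
    push_cast
    have h1 : (j : ℝ) ≤ J := by exact_mod_cast hj
    have h2 : 0 ≤ (K.k : ℝ) * Real.log 3 := by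
      have := Real.log_pos (by norm_num : (1 : ℝ) < 3)
      positivity
    have := mul_le_mul_of_nonneg_right h1 h2
    linarith
  have htel := telescope G m N J _ hGmono hGc
  -- the one-step inequality
  set q : E := K.push^[m] lam with hq
  have hql : IsLaw q := iter_law (fun p hp => push_law K hp) hlaml m
  have hqM : ∀ n x, q n x ≤ μ⁻¹ * p n x := iter_le_mul K hp.1.2 hlamM m
  have hstep : ∀ n ∈ range N, G (m + n + J) - G (m + n) ≤ hh (K.push^[n] q) (K.k * J) - hh (K.push^[n] q) 0 := by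
    intro n _
    have h1 := stepS_iter hS K hlaml (m + n) 0 (K.k * J) (Nat.zero_le _)
    rw [zero_add] at h1
    have e1 : K.push^[n] q = K.push^[m + n] lam := by
      rw [hq, add_comm m n, Function.iterate_add_apply]
    rw [e1]
    simp only [hG]
    rw [show K.k * (m + n + J) = K.k * J + K.k * (m + n) by ring]
    exact h1
  have hconc := concave (range N) (fun _ => (N : ℝ)⁻¹) (fun l => K.push^[l] q) (fun _ _ => by positivity)
    (by
      rw [sum_const, card_range, nsmul_eq_mul]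
      have : (N : ℝ) ≠ 0 := by positivity
      field_simp) (fun l _ => iter_law (fun p hp => push_law K hp) hql l) (K.k * J)
  have hu := hN0 N hNN0 q hql hqM
  have hNpos : (0 : ℝ) < N := by exact_mod_cast hN1'
  have hsum : ∑ n ∈ range N, (hh (K.push^[n] q) (K.k * J) - hh (K.push^[n] q) 0) ≤ N * (J * (β + ε / 3) + J * ε / 3) := by
    rw [← mul_sum] at hconc
    have h1 : (N : ℝ)⁻¹ * ∑ n ∈ range N, (hh (K.push^[n] q) (K.k * J) - hh (K.push^[n] q) 0) ≤ J * (β + ε / 3) + J * ε / 3 := by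
      refine hconc.trans ?_
      have h2 : hh (∑ i ∈ range N, (N : ℝ)⁻¹ • K.push^[i] q) (K.k * J) - hh (∑ i ∈ range N, (N : ℝ)⁻¹ • K.push^[i] q) 0 ≤
        hh p (K.k * J) - hh p 0 + J * ε / 3 := hu
      linarith
    rwa [inv_mul_le_iff₀ hNpos] at h1
  have hfin : (J : ℝ) * (G (m + N) - G m) ≤ N * (J * (β + ε / 3) + J * ε / 3) + J * (J * (K.k * Real.log 3)) :=
    htel.trans (by have := sum_le_sum hstep; linarith)
  have hfin2 : G (m + N) - G m ≤ N * (β + ε) := by
    have h1 : (G (m + N) - G m) ≤ N * (β + 2 * ε / 3) + J * (K.k * Real.log 3) := by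
      have h2 : (J : ℝ) * (G (m + N) - G m) ≤ J * (N * (β + 2 * ε / 3) + J * (K.k * Real.log 3)) := by
        refine hfin.trans (le_of_eq ?_)
        ring
      exact le_of_mul_le_mul_left h2 hJpos
    have h3 : (J : ℝ) * (K.k * Real.log 3) ≤ N * (ε / 3) := by
      have h4 : 3 * (J * (K.k * Real.log 3)) / ε ≤ N := hN1.trans (by exact_mod_cast hNN1)
      rw [div_le_iff₀ hε] at h4
      linarith
    linarith
  have hGe : G (m + N) - G m = b⁻¹ * ∑ x ∈ B, nent p s (K.k * N) (x : ℤ) := by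
    rw [← hent]
    simp only [hG]
    rw [mul_add]
  rw [hGe, inv_mul_le_iff₀ hbpos] at hfin2
  exact hfin2

end Pool.Agent.Helper1.Q1
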